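import Pool.Agent.Results.MP_31d0eb_nt.BalancedPrimes

set_option autoImplicit false

/-!
# MP_7b323f_nt: almost all primes are far from all long gaps

Let `θ > 0`, `X` large, `X ^ θ ≤ Y ≤ X` and `0 < c ≤ 1 / 16`.  All but at most `C c ^ (1/4) Y / log X`
of the primes `p` in `(X, X + Y]` have a distance of at least `c g` from EVERY prime gap of length `g`,
for all lengths `(2 / c) log X ≤ g ≤ Y / 2` at once.  The same is true for the gaps in any set `P` of
primes and `p` in `P` (for example the primes of a residue class); `C` depends only on `θ`.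

So the primes near a gap longer than `(log X) ^ (2 + ε)` (which should not exist), or near the record
gaps, at a distance small compared with the length of the gap, are few, for all these gaps together.
-/

namespace Pool.Agent.Results.MP_7b323f_nt.GapsFarFromMostPrimes

open Finset Filter
open Pool.Agent.Results.MP_31d0eb_nt.BalancedPrimes

/-- the distance of `p` from every interval `(a, a + g)` without elements of `P` is at least `c g`, for
all lengths `(2 / c) log X ≤ g ≤ Y / 2` -/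
def FarFromGaps (P : Set ℕ) (c : ℝ) (X Y p : ℕ) : Prop :=
  ∀ a g : ℝ, 2 / c * Real.log X ≤ g → g ≤ Y / 2 → (∀ q ∈ P, ¬ (a < q ∧ (q : ℝ) < a + g)) →
    (p : ℝ) ≤ a - c * g ∨ a + g + c * g ≤ p

lemma finite_count (P : Set ℕ) (x H : ℝ) : {q : ℕ | q ∈ P ∧ x < q ∧ (q : ℝ) ≤ x + H}.Finite := by
  apply Set.Finite.subset (Finset.finite_toSet (Finset.range (⌊x + H⌋₊ + 1)))
  rintro q ⟨-, -, h⟩
  rw [mem_coe, mem_range]
  exact Nat.lt_succ_of_le (Nat.le_floor h)

lemma count_le_count (P Q : Set ℕ) (x H x' H' : ℝ)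
    (h : ∀ q ∈ P, x < q → (q : ℝ) ≤ x + H → q ∈ Q ∧ x' < q ∧ (q : ℝ) ≤ x' + H') :
    count P x H ≤ count Q x' H' := by
  apply Set.ncard_le_ncard _ (finite_count Q x' H')
  rintro q ⟨h1, h2, h3⟩
  exact h q h1 h2 h3

lemma far_of_rightOrder (P : Set ℕ) (hP : P ⊆ primes) (c : ℝ) (hc : 0 < c) (hc1 : c ≤ 1 / 16)
    (X Y p : ℕ) (hp : p ∈ P) (hL : 1 ≤ Real.log X)
    (h : RightOrder P (1 / (4 * √c)) X Y p) : FarFromGaps P c X Y p := by
  intro a g hg hgY hfree
  set L := Real.log X with hLdef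
  have hs : 0 < √c := Real.sqrt_pos.2 hc
  set lam : ℝ := 1 / (4 * √c) with hlam
  have hlam0 : 0 < lam := by positivity
  have hlam2 : lam * lam * c = 1 / 16 := by
    rw [hlam]
    have : √c * √c = c := Real.mul_self_sqrt hc.le
    field_simp
    nlinarith
  have hcg : 2 * L ≤ c * g := by
    calc 2 * L = c * (2 / c * L) := by field_simp
      _ ≤ c * g := by gcongr
  have hg32 : 32 ≤ g := by nlinarith
  have hL0 : 0 < L := by linarith
  by_contra hcon
  push Not at hcon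
  obtain ⟨hc1', hc2'⟩ := hcon
  -- the final contradiction
  have key : ∀ n m : ℕ, g / 2 / (lam * L) ≤ n → n ≤ m → (m : ℝ) ≤ lam * (1 + (c * g + 1) / L) →
      False := by
    intro n m k1 k2 k3
    have k2' : (n : ℝ) ≤ m := by exact_mod_cast k2
    have k4 : g / 2 / (lam * L) ≤ lam * (1 + (c * g + 1) / L) := k1.trans (k2'.trans k3)
    rw [div_le_iff₀ (by positivity)] at k4
    have k5 : lam * (1 + (c * g + 1) / L) * (lam * L) = lam * lam * (L + (c * g + 1)) := by
      field_simp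
    rw [k5] at k4
    have k6 : L + (c * g + 1) ≤ 2 * (c * g) := by linarith
    have k7 : lam * lam * (L + (c * g + 1)) ≤ lam * lam * (2 * (c * g)) := by gcongr
    have k8 : lam * lam * (2 * (c * g)) = (lam * lam * c) * (2 * g) := by ring
    rw [k8, hlam2] at k7
    linarith
  have hnot := hfree p hp
  have hcg4 : c * g ≤ g / 16 := by nlinarith
  by_cases hpa : (p : ℝ) ≤ a
  · -- `p` on the left of the gap
    have e1 := (h (p - 1) (a + g / 2 - (p - 1)) (by linarith) (by linarith) (by linarith)).1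
    have e2 := (h (p - 1) (a - (p - 1)) (by linarith) (by linarith) (by linarith)).2
    refine key _ _ (le_trans ?_ e1) (count_le_count P primes (p - 1) (a + g / 2 - (p - 1))
      (p - 1) (a - (p - 1)) ?_) (e2.trans ?_)
    · apply div_le_div_of_nonneg_right _ (by positivity)
      linarith
    · intro q q1 q2 q3
      refine ⟨hP q1, q2, ?_⟩
      by_contra hq
      exact hfree q q1 ⟨by linarith, by linarith⟩
    · gcongr
      linarith
  · push Not at hpa
    have hpg : a + g ≤ p := by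
      by_contra hq
      exact hnot ⟨hpa, by linarith⟩
    have e1 := (h (a + g / 2) (p - (a + g / 2)) (by linarith) (by linarith) (by linarith)).1
    have e2 := (h (a + g - 1) (p - (a + g - 1)) (by linarith) (by linarith) (by linarith)).2
    refine key _ _ (le_trans ?_ e1) (count_le_count P primes (a + g / 2) (p - (a + g / 2))
      (a + g - 1) (p - (a + g - 1)) ?_) (e2.trans ?_)
    · apply div_le_div_of_nonneg_right _ (by positivity)
      linarith
    · intro q q1 q2 q3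
      refine ⟨hP q1, ?_, by linarith⟩
      by_contra hq
      exact hfree q q1 ⟨by linarith, by linarith⟩
    · gcongr
      linarith

theorem main (θ : ℝ) (h0 : 0 < θ) : ∃ C : ℝ, 0 < C ∧ ∀ᶠ X : ℕ in atTop, ∀ Y : ℕ,
    (X : ℝ) ^ θ ≤ Y → Y ≤ X → ∀ P ⊆ primes, ∀ c : ℝ, 0 < c → c ≤ 1 / 16 →
      ({p : ℕ | p ∈ P ∧ X < p ∧ p ≤ X + Y ∧ ¬ FarFromGaps P c X Y p}.ncard : ℝ) ≤
        C * c ^ (1 / 4 : ℝ) * (Y / Real.log X) := by
  obtain ⟨C, hC, h⟩ := Pool.Agent.Results.MP_31d0eb_nt.BalancedPrimes.result.1 θ h0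
  refine ⟨2 * C, by positivity, ?_⟩
  have hlogX : Tendsto (fun X : ℕ => Real.log (X : ℝ)) atTop atTop :=
    Real.tendsto_log_atTop.comp tendsto_natCast_atTop_atTop
  filter_upwards [h, hlogX.eventually_ge_atTop 1] with X hX hL
  intro Y hY hYX P hP c hc hc1
  have hs : 0 < √c := Real.sqrt_pos.2 hc
  have hs4 : √c ≤ 1 / 4 := by
    rw [Real.sqrt_le_left (by norm_num)]
    norm_num
    linarith
  have hlam : 1 ≤ 1 / (4 * √c) := by
    rw [le_div_iff₀ (by positivity)]
    linarith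
  have h1 := hX Y hY hYX P hP (1 / (4 * √c)) hlam
  have h2 : C / √(1 / (4 * √c)) = 2 * C * c ^ (1 / 4 : ℝ) := by
    have e1 : √(1 / (4 * √c)) = 1 / (2 * √(√c)) := by
      rw [Real.sqrt_div' _ (by positivity), Real.sqrt_one, Real.sqrt_mul (by norm_num)]
      congr 2
      rw [show (4 : ℝ) = 2 ^ 2 by norm_num]
      exact Real.sqrt_sq (by norm_num)
    have e2 : √(√c) = c ^ (1 / 4 : ℝ) := by
      rw [Real.sqrt_eq_rpow, Real.sqrt_eq_rpow, ← Real.rpow_mul hc.le]
      norm_num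
    rw [e1, e2]
    field_simp
  rw [h2] at h1
  refine le_trans ?_ h1
  apply Nat.cast_le.2
  apply Set.ncard_le_ncard
  · rintro p ⟨p1, p2, p3, p4⟩
    exact ⟨p1, p2, p3, fun hR => p4 (far_of_rightOrder P hP c hc hc1 X Y p p1 hL hR)⟩
  · apply Set.Finite.subset (Finset.finite_toSet (Ioc X (X + Y)))
    rintro p ⟨-, p2, p3, -⟩
    rw [mem_coe, mem_Ioc]
    exact ⟨p2, p3⟩

/-- **Almost all primes are far from all long gaps.**  (1) for all sets `P` of primes, with a bound for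
the number of exceptions in `(X, X + Y]`, `X ^ θ ≤ Y ≤ X`, `θ > 0` arbitrary; (2), (3): for some
`θ < 1` (and for all `θ` for which `(X, X + Y]` contains `≫ Y / log X` primes) the exceptions are a
small proportion of the primes of the interval. -/
theorem result :
    (∀ θ : ℝ, 0 < θ → ∃ C : ℝ, 0 < C ∧ ∀ᶠ X : ℕ in atTop, ∀ Y : ℕ,
      (X : ℝ) ^ θ ≤ Y → Y ≤ X → ∀ P ⊆ primes, ∀ c : ℝ, 0 < c → c ≤ 1 / 16 →
        ({p : ℕ | p ∈ P ∧ X < p ∧ p ≤ X + Y ∧ ¬ FarFromGaps P c X Y p}.ncard : ℝ) ≤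
          C * c ^ (1 / 4 : ℝ) * (Y / Real.log X)) ∧
    (∃ θ : ℝ, 0 < θ ∧ θ < 1 ∧ ShortIntervals θ) ∧
    (∀ θ : ℝ, 0 < θ → ShortIntervals θ → ∀ η : ℝ, 0 < η → ∃ c : ℝ, 0 < c ∧
      ∀ᶠ X : ℕ in atTop, ∀ Y : ℕ, (X : ℝ) ^ θ ≤ Y → Y ≤ X →
        ({p : ℕ | p.Prime ∧ X < p ∧ p ≤ X + Y ∧ ¬ FarFromGaps primes c X Y p}.ncard : ℝ) ≤
          η * ({p : ℕ | p.Prime ∧ X < p ∧ p ≤ X + Y}.ncard : ℝ)) := by
  refine ⟨main, Pool.Agent.Results.MP_31d0eb_nt.BalancedPrimes.result.2.2.1, ?_⟩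
  rintro θ h0 ⟨c₁, hc₁, hS⟩ η hη
  obtain ⟨C, hC, h⟩ := main θ h0
  set b : ℝ := η * c₁ / C with hb
  have hb0 : 0 < b := by positivity
  refine ⟨min (1 / 16) (b ^ 4), by positivity, ?_⟩
  filter_upwards [h, hS] with X hX1 hX2
  intro Y hY hYX
  have h1 := hX1 Y hY hYX primes subset_rfl (min (1 / 16) (b ^ 4)) (by positivity) (min_le_left _ _)
  refine h1.trans ?_
  have h2 : (min (1 / 16) (b ^ 4)) ^ (1 / 4 : ℝ) ≤ b := by
    calc (min (1 / 16) (b ^ 4)) ^ (1 / 4 : ℝ) ≤ (b ^ 4) ^ (1 / 4 : ℝ) := by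
          apply Real.rpow_le_rpow (by positivity) (min_le_right _ _) (by norm_num)
      _ = b := by
          rw [← Real.rpow_natCast, ← Real.rpow_mul hb0.le]
          norm_num
  have hYL : 0 ≤ (Y : ℝ) / Real.log X := by positivity
  calc C * (min (1 / 16) (b ^ 4)) ^ (1 / 4 : ℝ) * (Y / Real.log X)
      ≤ C * b * (Y / Real.log X) := by gcongr
    _ = η * (c₁ * Y / Real.log X) := by
        rw [hb]
        field_simp
    _ ≤ _ := mul_le_mul_of_nonneg_left (hX2 Y hY hYX) hη.le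

end Pool.Agent.Results.MP_7b323f_nt.GapsFarFromMostPrimes
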