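import Pool.Agent.V1179.MH.GH15

set_option autoImplicit false

/-!
# Arbitrary systems of linear forms in the middle of record prime gaps

Write `f(Z) = log Z (log₂ Z)² log₄ Z / (log₃ Z)²` (the size of the longest prime gaps below `Z` that are
known, from the starting library).

For all `n`, `r` and `ε > 0` there is `κ > 0` such that the following holds.  Let `L_1, …, L_r` be
nonzero linear forms in `n` variables with integer coefficients, no two of which are proportional.  For
all large `T` every box in `ℤ^n` with sides `≥ T ^ ε`, on which all the numbers `L_i(z)` are `≥ T ^ ε`,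
contains a point `z` such that no prime lies within `κ f(T)` of any of the `r` numbers `L_i(z)`.

So the integers in the middle of record prime gaps contain, in every such box, all the configurations
of Rado's theory of partition regular systems without regularity assumptions: Schur triples
`x, y, x + y`, all finite sums `∑_{i ∈ S} x_i` (Folkman), the `(m, p, c)`-sets of Deuber, solutions of
`a x + b y = c z` for all coefficients, and so on.

Polynomial configurations `x + P_i(y)` (`MP_7b323f_nt.PolynomialConfigurations`) cover only the systems in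
which one variable has the same coefficient in all forms; then all members can be made equal up to
constants modulo small primes, and one sieve suffices.  Here Rankin's choice of residue classes is made
for all windows together (`Pool.Agent.V1179.MH.GH.joint_surv`, `critZ`); the second step is the covering
theorem `Pool.Agent.Y961.JR.coverAbs` of the starting library.
-/

namespace Pool.Agent.Results.MP_7b323f_nt.LinearForms

/-- the size of the largest known prime gaps below `Z` -/
noncomputable def f (Z : ℝ) : ℝ :=
  Real.log Z * (Real.log (Real.log Z)) ^ 2 * Real.log (Real.log (Real.log (Real.log Z))) /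
    (Real.log (Real.log (Real.log Z))) ^ 2

/-- no prime is at distance at most `d` from `x` -/
def PrimeFreeAround (x d : ℝ) : Prop := ∀ q : ℕ, q.Prime → d < |(q : ℝ) - x|

/-- the value at `z` of the linear form with the coefficients `A` -/
def form {n : ℕ} (A z : Fin n → ℤ) : ℤ := ∑ k, A k * z k

theorem result (n r : ℕ) (hn : 1 ≤ n) (hr : 1 ≤ r) (ε : ℝ) (hε : 0 < ε) :
    ∃ κ : ℝ, 0 < κ ∧ ∀ A : Fin r → Fin n → ℤ, (∀ i, A i ≠ 0) →
    (∀ i j, i ≠ j → ∃ k l, A i k * A j l ≠ A i l * A j k) →
    ∃ T₀ : ℝ, ∀ T : ℝ, T₀ ≤ T → ∀ (a : Fin n → ℤ) (L : Fin n → ℕ),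
      (∀ j, T ^ ε ≤ L j) →
      (∀ z : Fin n → ℤ, (∀ j, a j ≤ z j ∧ z j < a j + L j) → ∀ i, T ^ ε ≤ (form (A i) z : ℝ)) →
      ∃ z : Fin n → ℤ, (∀ j, a j ≤ z j ∧ z j < a j + L j) ∧
        ∀ i, PrimeFreeAround (form (A i) z) (κ * f T) := by
  obtain ⟨κ, hκ, h⟩ := Pool.Agent.V1179.MH.GH.lf_config n r hn hr (min ε 1) (lt_min hε one_pos)
    (min_le_right _ _)
  refine ⟨κ, hκ, fun A hA0 hA => ?_⟩
  obtain ⟨T₀, hT⟩ := h A hA0 hA
  refine ⟨max T₀ 1, fun T hTT a L hL hval => ?_⟩
  have hT1 : 1 ≤ T := (le_max_right _ _).trans hTT
  have hmono : T ^ (min ε 1) ≤ T ^ ε := Real.rpow_le_rpow_of_exponent_le hT1 (min_le_left _ _)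
  exact hT T ((le_max_left _ _).trans hTT) a L (fun j => hmono.trans (hL j))
    (fun z hz i => hmono.trans (hval z hz i))

end Pool.Agent.Results.MP_7b323f_nt.LinearForms
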