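import Pool.Agent.V1179.MH.PC2

set_option autoImplicit false

/-!
# Polynomial configurations of integers in the middle of record prime gaps

Write `f(Z) = log Z (log₂ Z)² log₄ Z / (log₃ Z)²` (the size of the longest prime gaps below `Z` that are
known, from the starting library).

Let `P_1, …, P_r` be any integer polynomials in `m` variables of degree at most `D` no two of which
differ by a constant, for instance `0, y, y², …, y^(r-1)`, or `0, y, 2y, …`, or `y² + 1`, `z³`, `y z`.
There is `κ > 0`, depending only on `m`, `r`, `D` and `ε`, such that for all large `T` every box in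
`ℤ^(m+1)` with sides `≥ T ^ ε` (on which the numbers `x + P_i(y)` are `≥ T ^ ε`) contains a point
`(x, y_1, …, y_m)` such that no prime lies within `κ f(T)` of any of the `r` numbers
`x + P_1(y), …, x + P_r(y)`.

So the integers in the middle of record prime gaps contain the polynomial configurations of the theorem
of Bergelson and Leibman, in every box, although they are a set of density zero.

Proof: the criterion for families of polynomial values `Pool.Agent.V1179.MH.SF.critF` (on the basis of
the covering theorem `Pool.Agent.Y961.JR.coverAbs` of the starting library); modulo all small primes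
together the point is `(e, 0, …, 0)`, modulo a larger prime the values are uniform and almost pairwise
independent (Schwartz and Zippel).
-/

namespace Pool.Agent.Results.MP_7b323f_nt.PolynomialConfigurations

open MvPolynomial

/-- the size of the largest known prime gaps below `Z` -/
noncomputable def f (Z : ℝ) : ℝ :=
  Real.log Z * (Real.log (Real.log Z)) ^ 2 * Real.log (Real.log (Real.log (Real.log Z))) /
    (Real.log (Real.log (Real.log Z))) ^ 2

/-- no prime is at distance at most `d` from `x` -/
def PrimeFreeAround (x d : ℝ) : Prop := ∀ q : ℕ, q.Prime → d < |(q : ℝ) - x|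

/-- the number `x + P(y)` for `z = (x, y)` -/
noncomputable def value {m : ℕ} (P : MvPolynomial (Fin m) ℤ) (z : Fin (m + 1) → ℤ) : ℤ :=
  z 0 + eval (fun l => z l.succ) P

theorem result (m r D : ℕ) (hr : 1 ≤ r) (ε : ℝ) (hε : 0 < ε) :
    ∃ κ : ℝ, 0 < κ ∧ ∀ P : Fin r → MvPolynomial (Fin m) ℤ, (∀ i, (P i).totalDegree ≤ D) →
    (∀ i j, i ≠ j → ∀ c : ℤ, P i - P j ≠ C c) →
    ∃ T₀ : ℝ, ∀ T : ℝ, T₀ ≤ T → ∀ (a : Fin (m + 1) → ℤ) (L : Fin (m + 1) → ℕ),
      (∀ j, T ^ ε ≤ L j) →
      (∀ z : Fin (m + 1) → ℤ, (∀ j, a j ≤ z j ∧ z j < a j + L j) →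
        ∀ i, T ^ ε ≤ (value (P i) z : ℝ)) →
      ∃ z : Fin (m + 1) → ℤ, (∀ j, a j ≤ z j ∧ z j < a j + L j) ∧
        ∀ i, PrimeFreeAround (value (P i) z) (κ * f T) :=
  Pool.Agent.V1179.MH.PC.config' m r D hr ε hε

end Pool.Agent.Results.MP_7b323f_nt.PolynomialConfigurations
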